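import Pool.Agent.H699.MW.Defs

/-!
# Project MW: values close to the forced ones have positive probability
-/

set_option autoImplicit false

open MeasureTheory Finset
open scoped Classical

namespace Pool.Agent.H695.MW.REA

open Pool.Agent.H699.MW

theorem pmax_nonneg {ι : Type*} (s : Finset ι) (x : ι → ℝ) : 0 ≤ pmax s x :=
  (Finset.le_fold_max _).2 (Or.inl le_rfl)

theorem le_pmax {ι : Type*} {s : Finset ι} {x : ι → ℝ} {i : ι} (hi : i ∈ s) : x i ≤ pmax s x :=
  (Finset.le_fold_max _).2 (Or.inr ⟨i, hi, le_rfl⟩)

theorem pmax_cases {ι : Type*} (s : Finset ι) (x : ι → ℝ) :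
    pmax s x ≤ 0 ∨ ∃ i ∈ s, pmax s x ≤ x i :=
  (Finset.le_fold_max _).1 (le_refl (pmax s x))

theorem measurable_pmax {α : Type*} [MeasurableSpace α] {ι : Type*} (s : Finset ι)
    (f : ι → α → ℝ) (hf : ∀ i, Measurable (f i)) : Measurable fun p => pmax s fun i => f i p := by
  induction s using Finset.induction_on with
  | empty =>
    have h : (fun p : α => pmax (∅ : Finset ι) fun i => f i p) = fun _ => (0 : ℝ) := by
      funext p
      exact Finset.fold_empty
    rw [h]
    exact measurable_const
  | insert a s ha ih =>
    have h : (fun p : α => pmax (insert a s) fun i => f i p) =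
        fun p => max (f a p) (pmax s fun i => f i p) := by
      funext p
      exact Finset.fold_insert ha
    rw [h]
    exact (hf a).max ih

theorem real_one_of_compl {ν : Measure ℝ} [IsProbabilityMeasure ν] {s : Set ℝ}
    (hs : MeasurableSet s) (h : ν sᶜ = 0) : ν.real s = 1 := by
  rw [Measure.real, (prob_compl_eq_zero_iff hs).1 h, ENNReal.toReal_one]

theorem t_REA : S_LPR → S_UNI → S_CDF → S_REA := by
  intro hL hU hC μ a b hG d m
  have hμ : IsProbabilityMeasure μ := ⟨hG.prob⟩
  induction m with
  | zero =>
    intro δ hδ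
    refine ⟨1, one_pos, fun n _ T _ => ?_⟩
    obtain ⟨h1, h2, h3, h4, h5, h6⟩ := hL μ a b hG n T
    have := h1 true
    have := h1 false
    constructor
    · have e : rob a b 0 T false = b := by cases T; rfl
      rw [e]
      refine (real_one_of_compl measurableSet_Iic (measure_mono_null (fun x hx => ?_)
        (h6 true))).ge
      rw [Set.mem_compl_iff, Set.mem_Iic, not_le] at hx
      rw [Set.mem_Ioi]
      linarith
    · have e : rob a b 0 T true = 0 := by cases T; rfl
      rw [e]
      refine (real_one_of_compl measurableSet_Ici (measure_mono_null (fun x hx => ?_)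
        (h5 false))).ge
      rw [Set.mem_compl_iff, Set.mem_Ici, not_le] at hx
      rw [Set.mem_Iio]
      linarith
  | succ m ih =>
    intro δ hδ
    obtain ⟨q, hq, hq'⟩ := ih (δ / 2) (by positivity)
    have hab := hG.lt
    obtain ⟨η, hη⟩ : ∃ η : ℝ, η = min (δ / 2) (b - a) := ⟨_, rfl⟩
    have hη0 : 0 < η := by
      rw [hη]
      exact lt_min (by positivity) (by linarith)
    have hη1 : η ≤ δ / 2 := by rw [hη]; exact min_le_left _ _
    have hη2 : η ≤ b - a := by rw [hη]; exact min_le_right _ _
    obtain ⟨p, hp, hp'⟩ := (hU μ a b hG).2 η hη0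
    have hpa : p ≤ μ.real (Set.Icc a (a + η)) := hp' a (a + η) le_rfl le_rfl (by linarith)
    have hpb : p ≤ μ.real (Set.Icc (b - η) b) := hp' (b - η) b (by linarith) (by linarith) le_rfl
    obtain ⟨r, hr⟩ : ∃ r : ℝ, r = min (p * q) 1 := ⟨_, rfl⟩
    have hr0 : 0 < r := by
      rw [hr]
      exact lt_min (by positivity) one_pos
    have hr1 : r ≤ 1 := by rw [hr]; exact min_le_right _ _
    have hr2 : r ≤ p * q := by rw [hr]; exact min_le_left _ _
    refine ⟨r ^ (d + 1), by positivity, fun n hn T hT => ?_⟩
    obtain ⟨n', rfl⟩ : ∃ n', n = n' + 1 := ⟨n - 1, by omega⟩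
    have hmn : m ≤ n' := by omega
    obtain ⟨k, c⟩ := T
    have hT' : k ≤ d ∧ ∀ i, (c i).Wd d := by
      simpa only [RT.Wd] using hT
    obtain ⟨hk, hc⟩ := hT'
    have hrk : r ^ (d + 1) ≤ r ^ k := pow_le_pow_of_le_one hr0.le hr1 (by omega)
    have hr3 : r ^ (d + 1) ≤ r := by
      have := pow_le_pow_of_le_one hr0.le hr1 (show 1 ≤ d + 1 by omega)
      rwa [pow_one] at this
    constructor
    · -- the upper message is small
      have e1 : law μ b (n' + 1) (RT.node k c) true =
          stepLaw μ k (fun i => law μ b n' (c i) false) := rfl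
      have e2 : rob a b (m + 1) (RT.node k c) false =
          pmax univ (fun i : Fin k => a - rob a b m (c i) true) := rfl
      obtain ⟨R, hR⟩ : ∃ R : ℝ, R = pmax univ (fun i : Fin k => a - rob a b m (c i) true) :=
        ⟨_, rfl⟩
      have hR0 : 0 ≤ R := by rw [hR]; exact pmax_nonneg _ _
      have hRi : ∀ i : Fin k, a - rob a b m (c i) true ≤ R := fun i => by
        rw [hR]
        exact le_pmax (x := fun i : Fin k => a - rob a b m (c i) true) (Finset.mem_univ i)
      have hνi : ∀ i, IsProbabilityMeasure (law μ b n' (c i) false) :=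
        fun i => (hL μ a b hG n' (c i)).1 false
      rw [e1, e2, ← hR, (hC μ k (fun i => law μ b n' (c i) false) hμ hνi).2 (R + δ) (by linarith)]
      refine hrk.trans ?_
      have e3 : r ^ k = ∏ _i : Fin k, r := by
        rw [Finset.prod_const, Finset.card_univ, Fintype.card_fin]
      rw [e3]
      refine Finset.prod_le_prod (fun i _ => hr0.le) fun i _ => ?_
      have h1 := (hq' n' hmn (c i) (hc i)).2
      have h2 : (Set.Icc a (a + η)) ×ˢ (Set.Ici (rob a b m (c i) true - δ / 2)) ⊆
          {p : ℝ × ℝ | p.1 - p.2 ≤ R + δ} := by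
        rintro ⟨w, x⟩ ⟨hw, hx⟩
        have hw2 : w ≤ a + η := hw.2
        have hx2 : rob a b m (c i) true - δ / 2 ≤ x := hx
        show w - x ≤ R + δ
        have := hRi i
        linarith
      calc r ≤ p * q := hr2
        _ ≤ μ.real (Set.Icc a (a + η)) *
            (law μ b n' (c i) false).real (Set.Ici (rob a b m (c i) true - δ / 2)) :=
          mul_le_mul hpa h1 hq.le measureReal_nonneg
        _ = (μ.prod (law μ b n' (c i) false)).real
            ((Set.Icc a (a + η)) ×ˢ (Set.Ici (rob a b m (c i) true - δ / 2))) :=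
          (measureReal_prod_prod _ _).symm
        _ ≤ _ := measureReal_mono h2
    · -- the lower message is large
      have e1 : law μ b (n' + 1) (RT.node k c) false =
          stepLaw μ k (fun i => law μ b n' (c i) true) := rfl
      have e2 : rob a b (m + 1) (RT.node k c) true =
          pmax univ (fun i : Fin k => b - rob a b m (c i) false) := rfl
      obtain ⟨R, hR⟩ : ∃ R : ℝ, R = pmax univ (fun i : Fin k => b - rob a b m (c i) false) :=
        ⟨_, rfl⟩
      have hνi : ∀ i, IsProbabilityMeasure (law μ b n' (c i) true) :=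
        fun i => (hL μ a b hG n' (c i)).1 true
      have hgm : Measurable (fun p : Fin k → ℝ × ℝ => pmax univ fun i => (p i).1 - (p i).2) :=
        measurable_pmax univ (fun (i : Fin k) (p : Fin k → ℝ × ℝ) => (p i).1 - (p i).2)
          (fun i => by fun_prop)
      rw [e1, e2, ← hR]
      unfold stepLaw
      rw [map_measureReal_apply hgm measurableSet_Ici]
      refine hr3.trans ?_
      rcases pmax_cases univ (fun i : Fin k => b - rob a b m (c i) false) with h0 | ⟨i, -, hi⟩
      · rw [← hR] at h0
        have h1 : (fun p : Fin k → ℝ × ℝ => pmax univ fun i => (p i).1 - (p i).2) ⁻¹'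
            (Set.Ici (R - δ)) = Set.univ := by
          ext p
          simp only [Set.mem_preimage, Set.mem_Ici, Set.mem_univ, iff_true]
          have := pmax_nonneg (univ : Finset (Fin k)) (fun i => (p i).1 - (p i).2)
          linarith
        rw [h1, probReal_univ]
        exact hr1
      · rw [← hR] at hi
        have h1 := (hq' n' hmn (c i) (hc i)).1
        have h2 : (Function.eval i) ⁻¹' ((Set.Icc (b - η) b) ×ˢ
            (Set.Iic (rob a b m (c i) false + δ / 2))) ⊆
            (fun p : Fin k → ℝ × ℝ => pmax univ fun i => (p i).1 - (p i).2) ⁻¹'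
              (Set.Ici (R - δ)) := by
          rintro p ⟨hw, hx⟩
          have hw2 : b - η ≤ (p i).1 := hw.1
          have hx2 : (p i).2 ≤ rob a b m (c i) false + δ / 2 := hx
          show R - δ ≤ pmax univ fun i => (p i).1 - (p i).2
          have h3 : (p i).1 - (p i).2 ≤ pmax univ fun i => (p i).1 - (p i).2 :=
            le_pmax (x := fun i => (p i).1 - (p i).2) (Finset.mem_univ i)
          have hi' : R ≤ b - rob a b m (c i) false := hi
          linarith
        have h3 : (Measure.pi fun i => μ.prod (law μ b n' (c i) true)).real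
            ((Function.eval i) ⁻¹' ((Set.Icc (b - η) b) ×ˢ
              (Set.Iic (rob a b m (c i) false + δ / 2)))) =
            (μ.prod (law μ b n' (c i) true)).real ((Set.Icc (b - η) b) ×ˢ
              (Set.Iic (rob a b m (c i) false + δ / 2))) := by
          unfold Measure.real
          rw [(measurePreserving_eval (fun i => μ.prod (law μ b n' (c i) true)) i).measure_preimage
            (measurableSet_Icc.prod measurableSet_Iic).nullMeasurableSet]
        calc r ≤ p * q := hr2
          _ ≤ μ.real (Set.Icc (b - η) b) *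
              (law μ b n' (c i) true).real (Set.Iic (rob a b m (c i) false + δ / 2)) :=
            mul_le_mul hpb h1 hq.le measureReal_nonneg
          _ = (μ.prod (law μ b n' (c i) true)).real
              ((Set.Icc (b - η) b) ×ˢ (Set.Iic (rob a b m (c i) false + δ / 2))) :=
            (measureReal_prod_prod _ _).symm
          _ = _ := h3.symm
          _ ≤ _ := measureReal_mono h2

end Pool.Agent.H695.MW.REA
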